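import Mathlib
import Pool.Agent.Helper62.UBDefs
import Pool.Agent.Helper62.UBUpper

/-!
The unit bar visibility number of complete bipartite graphs: `ub (K_{m,n}) = m / 4 + o(m)`,
uniformly over `2 ≤ n ≤ m`, with an explicit error term of order `√m`.
-/

namespace Pool.Agent.Results.MP_f867b0_co.QuarterLaw

open Pool.Agent.Helper62

/-- `ub (K_{m,n}) = m / 4 + o(m)` as `m → ∞`, uniformly over `2 ≤ n ≤ m`; in fact
`m / 4 ≤ ub (K_{m,n}) ≤ m / 4 + 338 √m` for all `2 ≤ n ≤ m`. -/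
theorem result :
    (∀ ε : ℝ, 0 < ε → ∃ M : ℕ, ∀ m n : ℕ, M ≤ m → 2 ≤ n → n ≤ m →
      |(ub (completeBipartiteGraph (Fin m) (Fin n)) : ℝ) - (m : ℝ) / 4| ≤ ε * (m : ℝ)) ∧
    (∀ m n : ℕ, 2 ≤ n → n ≤ m →
      (m : ℝ) / 4 ≤ (ub (completeBipartiteGraph (Fin m) (Fin n)) : ℝ) ∧
      (ub (completeBipartiteGraph (Fin m) (Fin n)) : ℝ) ≤ (m : ℝ) / 4 + 338 * Real.sqrt (m : ℝ)) := by
  have key : ∀ m n : ℕ, 2 ≤ n → n ≤ m →
      (m : ℝ) / 4 ≤ (ub (completeBipartiteGraph (Fin m) (Fin n)) : ℝ) ∧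
      (ub (completeBipartiteGraph (Fin m) (Fin n)) : ℝ) ≤
        (m : ℝ) / 4 + 338 * Real.sqrt (m : ℝ) := by
    intro m n hn hnm
    obtain ⟨h1, h2⟩ := ub_estimate m n hn hnm
    have h1' : (m : ℝ) ≤ 4 * (ub (completeBipartiteGraph (Fin m) (Fin n)) : ℝ) := by
      exact_mod_cast h1
    have h2' : 4 * (ub (completeBipartiteGraph (Fin m) (Fin n)) : ℝ) ≤
        (m : ℝ) + 675 * ((Nat.sqrt m : ℝ) + 1) := by
      exact_mod_cast h2
    have h3 : (Nat.sqrt m : ℝ) ≤ Real.sqrt (m : ℝ) := Real.nat_sqrt_le_real_sqrt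
    have h4 : (1 : ℝ) ≤ Real.sqrt (m : ℝ) := by
      rw [Real.one_le_sqrt]
      have : 1 ≤ m := by omega
      exact_mod_cast this
    constructor <;> linarith
  refine ⟨?_, key⟩
  intro ε hε
  obtain ⟨M, hM⟩ := exists_nat_gt ((338 / ε) ^ 2)
  refine ⟨M, ?_⟩
  intro m n hMm hn hnm
  obtain ⟨h1, h2⟩ := key m n hn hnm
  have hMm' : (M : ℝ) ≤ m := by exact_mod_cast hMm
  have hm0 : (0 : ℝ) ≤ m := Nat.cast_nonneg m
  have h5 : 338 / ε ≤ Real.sqrt (m : ℝ) := by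
    apply Real.le_sqrt_of_sq_le
    linarith
  have h6 : 338 ≤ ε * Real.sqrt (m : ℝ) := by
    rw [div_le_iff₀ hε] at h5
    linarith
  have h7 : 338 * Real.sqrt (m : ℝ) ≤ ε * (m : ℝ) := by
    calc 338 * Real.sqrt (m : ℝ) ≤ (ε * Real.sqrt (m : ℝ)) * Real.sqrt (m : ℝ) :=
          mul_le_mul_of_nonneg_right h6 (Real.sqrt_nonneg _)
      _ = ε * (m : ℝ) := by rw [mul_assoc, Real.mul_self_sqrt hm0]
  rw [abs_le]
  constructor
  · have : 0 ≤ ε * (m : ℝ) := mul_nonneg hε.le hm0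
    linarith
  · linarith

end Pool.Agent.Results.MP_f867b0_co.QuarterLaw
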